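import Pool.Agent.H77.BC.Targets

/-!
# Theorem (E) for `GL_2` (board bcp_modules, row E2C)
-/

set_option autoImplicit false

open Set Matrix

namespace Pool.Agent.H4.BCP

open Pool.Agent.H77.BC

variable {K : Type} [Field K]

/-- conjugate of a transvection -/
theorem conj_tv {k : ℕ} (g x : GL (Fin k) K) (v φ : Fin k → K)
    (h : (x.val : Matrix (Fin k) (Fin k) K) = 1 + vecMulVec v φ) :
    ((g * x * g⁻¹).val : Matrix (Fin k) (Fin k) K) =
      1 + vecMulVec ((g.val : Matrix (Fin k) (Fin k) K) *ᵥ v)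
        (φ ᵥ* ((g⁻¹).val : Matrix (Fin k) (Fin k) K)) := by
  rw [Units.val_mul, Units.val_mul, h, mul_add, add_mul, mul_one, ← Units.val_mul,
    mul_inv_cancel, Units.val_one, mul_vecMulVec, vecMulVec_mul]

theorem val_inv_mul {k : ℕ} (g : GL (Fin k) K) :
    ((g⁻¹).val : Matrix (Fin k) (Fin k) K) * g.val = 1 := by
  rw [← Units.val_mul, inv_mul_cancel, Units.val_one]

/-- transvections with the columns of `g` as centres give elementary matrices in the
conjugate -/
theorem inl_of_ty0 {k : ℕ} (H : Subgroup (GL (Fin k) K)) (g : GL (Fin k) K) (i j : Fin k)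
    (hij : i ≠ j)
    (h : Ty0 H ((g.val : Matrix (Fin k) (Fin k) K) *ᵥ (Pi.single i 1 : Fin k → K))) (t : K) :
    InL (cj g H) i j t := by
  set φ : Fin k → K := (Pi.single j t : Fin k → K) ᵥ* ((g⁻¹).val : Matrix (Fin k) (Fin k) K)
    with hφ
  have h1 : φ ⬝ᵥ ((g.val : Matrix (Fin k) (Fin k) K) *ᵥ (Pi.single i 1 : Fin k → K)) = 0 := by
    rw [hφ, dotProduct_mulVec, vecMul_vecMul, val_inv_mul, vecMul_one, single_dotProduct,
      Pi.single_eq_of_ne (Ne.symm hij), mul_zero]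
  obtain ⟨x, hx, hx2⟩ := h φ h1
  refine ⟨g⁻¹ * x * g, ?_, ?_⟩
  · rw [mem_cj]
    have h2 : g * (g⁻¹ * x * g) * g⁻¹ = x := by group
    rw [h2]
    exact hx
  · have h2 := conj_tv g⁻¹ x _ _ hx2
    rw [inv_inv] at h2
    rw [h2, mulVec_mulVec, val_inv_mul, one_mulVec, hφ, vecMul_vecMul, val_inv_mul, vecMul_one]
    rw [transvection]
    congr 1
    ext a b
    rw [vecMulVec_apply, single_apply]
    by_cases ha : i = a
    · subst ha
      by_cases hb : j = b
      · subst hb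
        simp
      · rw [Pi.single_eq_of_ne (Ne.symm hb), mul_zero, if_neg (fun h => hb h.2)]
    · rw [Pi.single_eq_of_ne (Ne.symm ha), zero_mul, if_neg (fun h => ha h.1)]

theorem slle_of_cj {k : ℕ} (H : Subgroup (GL (Fin k) K)) (g : GL (Fin k) K)
    (h : SLle (cj g H)) : SLle H := by
  intro x hx
  have h1 : ((g⁻¹ * x * g).val : Matrix (Fin k) (Fin k) K).det = 1 := by
    rw [Units.val_mul, Units.val_mul, det_mul, det_mul, hx, mul_one, ← det_mul, val_inv_mul,
      det_one]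
  have h2 := h (g⁻¹ * x * g) h1
  rw [mem_cj] at h2
  have h3 : g * (g⁻¹ * x * g) * g⁻¹ = x := by group
  rwa [h3] at h2

/-- elements of `H` permute the vectors of type 0 -/
theorem ty0_smul {k : ℕ} (H : Subgroup (GL (Fin k) K)) (g : GL (Fin k) K) (hg : g ∈ H)
    (v : Fin k → K) (h : Ty0 H v) : Ty0 H ((g.val : Matrix (Fin k) (Fin k) K) *ᵥ v) := by
  intro φ hφ
  have h1 : (φ ᵥ* (g.val : Matrix (Fin k) (Fin k) K)) ⬝ᵥ v = 0 := by
    rw [← dotProduct_mulVec]
    exact hφ
  obtain ⟨x, hx, hx2⟩ := h _ h1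
  refine ⟨g * x * g⁻¹, H.mul_mem (H.mul_mem hg hx) (H.inv_mem hg), ?_⟩
  have h2 := conj_tv g x _ _ hx2
  rw [h2, vecMul_vecMul, ← Units.val_mul, mul_inv_cancel, Units.val_one, vecMul_one]

/-- two vectors of type 0 which are not proportional -/
theorem slle_two (hS : SLG) (H : Subgroup (GL (Fin 2) K)) (v w : Fin 2 → K) (hv : v ≠ 0)
    (hw : ∀ a : K, w ≠ a • v) (h1 : Ty0 H v) (h2 : Ty0 H w) : SLle H := by
  have hd : (!![v 0, w 0; v 1, w 1] : Matrix (Fin 2) (Fin 2) K).det ≠ 0 := by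
    rw [det_fin_two_of]
    intro h0
    by_cases hv0 : v 0 = 0
    · have hv1 : v 1 ≠ 0 := by
        intro h
        apply hv
        funext i
        fin_cases i
        · exact hv0
        · exact h
      rw [hv0, zero_mul, zero_sub, neg_eq_zero] at h0
      have hw0 : w 0 = 0 := by
        rcases mul_eq_zero.1 h0 with h | h
        · exact h
        · exact absurd h hv1
      apply hw (w 1 / v 1)
      funext i
      fin_cases i
      · show w 0 = w 1 / v 1 * v 0
        rw [hv0, mul_zero, hw0]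
      · show w 1 = w 1 / v 1 * v 1
        field_simp
    · apply hw (w 0 / v 0)
      funext i
      fin_cases i
      · show w 0 = w 0 / v 0 * v 0
        field_simp
      · show w 1 = w 0 / v 0 * v 1
        field_simp
        linear_combination h0
  set g : GL (Fin 2) K := GeneralLinearGroup.mkOfDetNeZero _ hd with hg
  have hgv : (g.val : Matrix (Fin 2) (Fin 2) K) = !![v 0, w 0; v 1, w 1] := rfl
  have c0 : (g.val : Matrix (Fin 2) (Fin 2) K) *ᵥ (Pi.single 0 1 : Fin 2 → K) = v := by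
    rw [hgv]
    funext i
    fin_cases i <;> simp
  have c1 : (g.val : Matrix (Fin 2) (Fin 2) K) *ᵥ (Pi.single 1 1 : Fin 2 → K) = w := by
    rw [hgv]
    funext i
    fin_cases i <;> simp
  apply slle_of_cj H g
  apply hS
  intro i j t hij
  apply inl_of_ty0 H g i j hij
  have hi : i = 0 ∨ i = 1 := by
    fin_cases i
    · exact Or.inl rfl
    · exact Or.inr rfl
  rcases hi with rfl | rfl
  · rw [c0]
    exact h1
  · rw [c1]
    exact h2

theorem pf_E2C {M : Type} (U : RU M) (hJ : CNJ U) (hE : ECR U) (h1 : E2A) (h2 : E2B U)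
    (hT : TYV) (hS : SLG) (hC : CJL) (hCT : CJT) : E2C U := by
  have _ : CJL := hC
  have _ : CJT := hCT
  intro K _ _ _ _ hf H hH hR
  have hA : ∀ v : Fin 2 → K, v ≠ 0 → Ty0 H v ∨ ∃ v' : Fin 2 → K, (∀ a : K, v' ≠ a • v) ∧
      H ⊓ Pv v = Pv v ⊓ Pv v' := by
    intro v hv
    obtain ⟨g, hg⟩ := (hT H).1 v hv
    obtain ⟨d1, d2, _⟩ := hJ g H hH
    have h3 := h2 hf (cj g H) d1 (by rw [d2]; omega)
    obtain ⟨t0, _, _, t3⟩ := (hT H).2 g
    rw [← hg]
    rcases h3 with h3 | h3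
    · exact Or.inl (t0 h3)
    · exact Or.inr (t3 h3)
  have hB := h1 H
  push Not at hB
  obtain ⟨v, hv, hv'⟩ := hB
  have hty : Ty0 H v := by
    rcases hA v hv with h | ⟨v', h3, h4⟩
    · exact h
    · exact absurd h4 (hv' v' h3)
  by_cases hw : ∃ w : Fin 2 → K, (∀ a : K, w ≠ a • v) ∧ Ty0 H w
  · obtain ⟨w, hw1, hw2⟩ := hw
    exact Or.inl (slle_two hS H v w hv hw1 hty hw2)
  · push Not at hw
    right
    left
    refine ⟨v, hv, ?_⟩
    have h3 := hE hf 1 H hH hR v hv
    apply h3.1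
    intro g hg
    have h4 := ty0_smul H g hg v hty
    by_contra hc
    apply hw _ _ h4
    intro a ha
    exact hc ⟨a, ha⟩

end Pool.Agent.H4.BCP
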