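import Pool.Agent.H77.BC.Targets

/-!
# Algebra of the group generated by a subgroup of `SL` and the scalar matrices (row HZA)
-/

set_option autoImplicit false

open Set Matrix

namespace Pool.Agent.H4.BCP

open Pool.Agent.H77.BC

/-- commutators do not see the scalar factors -/
theorem comm_hz {K : Type} [Field K] {k : ℕ} (s s' : GL (Fin k) K)
    (A B : SpecialLinearGroup (Fin k) K) (z y : Kˣ)
    (h1 : (s.val : Matrix (Fin k) (Fin k) K) = (z : K) • A.val)
    (h2 : (s'.val : Matrix (Fin k) (Fin k) K) = (y : K) • B.val) :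
    s * s' * s⁻¹ * s'⁻¹ = SpecialLinearGroup.toGL (A * B * A⁻¹ * B⁻¹) := by
  have h3 : SpecialLinearGroup.toGL (A * B * A⁻¹ * B⁻¹) * (s' * s) = s * s' := by
    apply Units.ext
    rw [Units.val_mul, Units.val_mul, Units.val_mul, h1, h2]
    have h4 : (SpecialLinearGroup.toGL (A * B * A⁻¹ * B⁻¹)).val = (A * B * A⁻¹ * B⁻¹).val := rfl
    rw [h4, smul_mul_smul_comm, smul_mul_smul_comm, mul_smul_comm]
    have h5 : (A * B * A⁻¹ * B⁻¹).val * (B.val * A.val) = A.val * B.val := by
      have h6 : A * B * A⁻¹ * B⁻¹ * (B * A) = A * B := by group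
      exact congrArg Subtype.val h6
    rw [h5, mul_comm (y : K) (z : K)]
  rw [← eq_mul_inv_iff_mul_eq] at h3
  rw [h3]
  group

theorem pf_HZA (hS : SLG) (hC : CMS) : HZA := by
  intro K _ _ k hk
  refine ⟨?_, fun H => ⟨?_, ?_⟩⟩
  · rw [eq_top_iff]
    intro g _
    have hd : (g.val : Matrix (Fin k) (Fin k) K).det ≠ 0 := (Matrix.isUnits_det_units g).ne_zero
    obtain ⟨z, hz⟩ := IsAlgClosed.exists_pow_nat_eq (g.val : Matrix (Fin k) (Fin k) K).det
      (show 0 < k by omega)
    have hz0 : z ≠ 0 := by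
      intro h0
      rw [h0, zero_pow (by omega)] at hz
      exact hd hz.symm
    refine ⟨Units.mk0 z hz0, ⟨z⁻¹ • g.val, ?_⟩, Subgroup.mem_top _, ?_⟩
    · rw [det_smul, Fintype.card_fin, ← hz, ← mul_pow, inv_mul_cancel₀ hz0, one_pow]
    · show (g.val : Matrix (Fin k) (Fin k) K) = z • (z⁻¹ • g.val)
      rw [smul_smul, mul_inv_cancel₀ hz0, one_smul]
  · intro h
    have h1 : SLle (H.map SpecialLinearGroup.toGL) := by
      apply hS
      intro i j t hij
      obtain ⟨s, s', hs, hs', hss⟩ := hC (K := K) i j t hij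
      obtain ⟨z, A, hA, e1⟩ := h s hs
      obtain ⟨y, B, hB, e2⟩ := h s' hs'
      refine ⟨s * s' * s⁻¹ * s'⁻¹, ?_, hss⟩
      rw [comm_hz s s' A B z y e1 e2]
      exact Subgroup.mem_map_of_mem _ (H.mul_mem (H.mul_mem (H.mul_mem hA hB) (H.inv_mem hA))
        (H.inv_mem hB))
    rw [eq_top_iff]
    intro A _
    obtain ⟨B, hB, hBA⟩ := Subgroup.mem_map.1 (h1 (SpecialLinearGroup.toGL A) A.2)
    rw [← SpecialLinearGroup.toGL_injective hBA]
    exact hB
  · intro hz A
    constructor
    · intro hA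
      exact ⟨SpecialLinearGroup.toGL A, ⟨1, A, hA, by rw [Units.val_one, one_smul]; rfl⟩, rfl⟩
    · rintro ⟨g, ⟨z, B, hB, e1⟩, e2⟩
      have h1 : A.val = (z : K) • B.val := by rw [← e2, e1]
      have h2 : (z : K) ^ k = 1 := by
        have h3 := congrArg Matrix.det h1
        rw [det_smul, Fintype.card_fin, A.2, B.2, mul_one] at h3
        exact h3.symm
      have h3 : ((z : K) • (1 : Matrix (Fin k) (Fin k) K)).det = 1 := by
        rw [det_smul, Fintype.card_fin, h2, det_one, mul_one]
      set C : SpecialLinearGroup (Fin k) K := ⟨(z : K) • 1, h3⟩ with hCdef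
      have hCc : C ∈ Subgroup.center (SpecialLinearGroup (Fin k) K) := by
        rw [Matrix.SpecialLinearGroup.mem_center_iff]
        refine ⟨z, by rw [Fintype.card_fin]; exact h2, ?_⟩
        show scalar (Fin k) (z : K) = (z : K) • 1
        rw [Matrix.smul_one_eq_diagonal]
        rfl
      have h4 : A = C * B := by
        apply Subtype.ext
        show A.val = ((z : K) • (1 : Matrix (Fin k) (Fin k) K)) * B.val
        rw [h1, smul_mul_assoc, one_mul]
      rw [h4]
      exact H.mul_mem (hz hCc) hB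

end Pool.Agent.H4.BCP
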